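import Pool.Agent.Lib.MP_2dbb30_al.IT.Only

set_option autoImplicit false
set_option linter.unusedSectionVars false

open Topology Filter Polynomial

namespace Pool.Agent.Lib.MP_2dbb30_al.IT

open Pool.Agent.Lib.MP_2dbb30_al.TF Pool.Agent.Lib.MP_2dbb30_al.LL

variable {p : ℕ} [Fact p.Prime] {G : Type*} [Group G] [TopologicalSpace G] [IsTopologicalGroup G]
  [CompactSpace G] [T2Space G] [TotallyDisconnectedSpace G]
  {V : Type*} [AddCommGroup V] [Module ℤ_[p] V] [TopologicalSpace V] [IsTopologicalAddGroup V]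
  {A : Subgroup G} {ι : V → G} {ρ : G →* Module.End ℤ_[p] V}

theorem exists_shift' (m : Model A ι ρ) (hG : ProP p G) (htf : ∀ g ∈ A, IsOfFinOrder g → g = 1)
    [Module.Finite ℤ_[p] V] (L : Submodule ℤ_[p] V) [Nontrivial L] (g : G)
    (hS : ∀ v ∈ L, ρ g v ∈ L) (hP : g = 1 ∨ ∑ i ∈ Finset.range p, ρ g ^ i = 0) :
    ∃ π : Module.End ℤ_[p] L, Function.Injective π ∧
      (∀ l : L, (π ⟨ρ g l, hS _ l.2⟩ : V) = ρ g (π l)) ∧
      (LinearMap.range π).toAddSubgroup.index = p ∧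
      ∀ v, (∀ n : ℕ, v ∈ LinearMap.range (π ^ n)) → v = 0 := by
  have htL : ∀ (a : ℤ_[p]) (v : L), a • v = 0 → a = 0 ∨ v = 0 := fun a v h =>
    (PT.tfA m htf (congrArg Subtype.val h)).imp_right Subtype.ext
  rcases hP with rfl | hN
  · obtain ⟨π, h1, h2, h3⟩ := exists_shift_p (p := p) htL
    exact ⟨π, h1, fun l => by simp, h2, h3⟩
  · obtain ⟨r, hr⟩ := exists_r hN
    let S : Module.End ℤ_[p] L := (ρ g).restrict hS
    have ht : ∀ (n : ℕ) (l : L), (((S - 1) ^ n) l : V) = ((ρ g - 1) ^ n) (l : V) := by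
      intro n l
      have := aeval_restrict_coe hS ((X - 1) ^ n) l
      simpa using this
    obtain ⟨π, h1, h2, h3, h4⟩ := exists_shift_t (p := p) htL (S - 1) (r.comp (X + 1))
      (fun v => Subtype.ext (by
        have h := congrArg (fun f : Module.End ℤ_[p] V => f (v : V)) hr
        have h' := ht 1 (aeval S r v)
        rw [pow_one, pow_one, aeval_restrict_coe] at h'
        rw [aeval_comp]
        simp only [map_add, aeval_X, map_one, sub_add_cancel]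
        rw [h', ← Module.End.mul_apply, ← h]
        simp [Nat.cast_smul_eq_nsmul]))
      (by
        obtain ⟨U, hU, hUp⟩ := exists_nhds_p m L
        obtain ⟨n, hn⟩ := m.small_t hG hU
        exact ⟨n, fun v => hUp _ (by rw [ht]; exact hn g v)⟩)
    refine ⟨π, h1, fun l => ?_, h3, h4⟩
    have h := congrArg (fun f : Module.End ℤ_[p] L => f l) h2
    simp only [Module.End.mul_apply, LinearMap.sub_apply, Module.End.one_apply, map_sub,
      sub_left_inj] at h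
    exact congrArg Subtype.val h

/-- an element of order `p` with norm zero: no non-trivial power has a fixed vector -/
theorem fix_zero (m : Model A ι ρ) (htf : ∀ g ∈ A, IsOfFinOrder g → g = 1) {t : G}
    (ht : t ^ p = 1) (hN : ∑ i ∈ Finset.range p, ρ t ^ i = 0) {n : ℤ} (hn : t ^ n ≠ 1) {w : V}
    (hw : ρ (t ^ n) w = w) : w = 0 := by
  have key : ∀ g, g ∈ Subgroup.centralizer ({ι w} : Set G) ↔ ρ g w = w := fun g => by
    rw [Subgroup.mem_centralizer_singleton_iff, ← mul_inv_eq_iff_eq_mul, ← m.conj, m.inj.eq_iff]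
  have h1 : ρ t w = w := (key t).1 (mem_of_zpow_mem (ht ▸ one_mem _) ((key _).2 hw) (by
    rintro ⟨k, rfl⟩
    exact hn (by rw [zpow_mul, zpow_natCast, ht, one_zpow])))
  have h2 := nrm_fix (p := p) h1
  rw [nrm, hN, LinearMap.zero_apply] at h2
  exact (PT.tfA m htf h2.symm).resolve_left (Nat.cast_ne_zero.2 (Fact.out : p.Prime).ne_zero)

theorem ve_caseC (m : Model A ι ρ) (hG : ProP p G) (htf : ∀ g ∈ A, IsOfFinOrder g → g = 1)
    [Module.Finite ℤ_[p] V] {y : G} (hy : y ^ p = 1) (hN : ∑ i ∈ Finset.range p, ρ y ^ i = 0)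
    (hgen : ∀ g, ∃ (v : V) (i : ℤ), g = ι v * y ^ i) (H : Subgroup G) (hne : H ≠ ⊥)
    (hH : IsClosed (H : Set G)) : VE p H := by
  classical
  have hp : p.Prime := Fact.out
  have hAn : A.Normal := ⟨fun a ha g => by
    obtain ⟨v, rfl⟩ := (m.mem a).1 ha
    exact (m.mem _).2 ⟨_, m.conj g v⟩⟩
  have zp : ∀ t : G, t ^ p = 1 → ∀ i : ℤ, (t ^ i) ^ p = 1 := fun t ht i => by
    rw [← zpow_natCast, ← zpow_mul, mul_comm, zpow_mul, zpow_natCast, ht, one_zpow]
  obtain ⟨h0, h0H, h0p, hP, hdec0⟩ : ∃ h0 ∈ H, h0 ^ p = 1 ∧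
      (h0 = 1 ∨ ∑ i ∈ Finset.range p, ρ h0 ^ i = 0) ∧
      ∀ h ∈ H, ∃ (v : V) (n : ℤ), h = ι v * h0 ^ n := by
    by_cases hHA : H ≤ A
    · refine ⟨1, H.one_mem, one_pow p, Or.inl rfl, fun h hh => ?_⟩
      obtain ⟨v, rfl⟩ := (m.mem h).1 (hHA hh)
      exact ⟨v, 0, by simp⟩
    obtain ⟨h0, h0H, h0A⟩ := SetLike.not_le_iff_exists.1 hHA
    obtain ⟨v, i, rfl⟩ := hgen h0
    have hi : y ^ i ≠ 1 := fun h => h0A (by rw [h, mul_one]; exact (m.mem _).2 ⟨v, rfl⟩)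
    have hN' : ∑ k ∈ Finset.range p, ρ (y ^ i) ^ k = 0 := by
      ext w
      refine fix_zero m htf hy hN hi ?_
      have := congrArg (fun S : Module.End ℤ_[p] V => S w) (mul_geom_sum (ρ (y ^ i)) p)
      rw [← map_pow, zp y hy, map_one, sub_self] at this
      exact sub_eq_zero.1 this
    refine ⟨_, h0H, by rw [iota_mul_pow m, hN', zp y hy, LinearMap.zero_apply, m.zero, one_mul],
      Or.inr (by rw [rho_iota_mul m, hN']), fun h _ => ?_⟩
    let π := QuotientGroup.mk' A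
    have hπ : ∀ w g, π (ι w * g) = π g := fun w g => by
      rw [map_mul, show π (ι w) = 1 from (QuotientGroup.eq_one_iff _).2 ((m.mem _).2 ⟨w, rfl⟩),
        one_mul]
    have h1 : π y ∈ Subgroup.zpowers (π (ι v * y ^ i)) :=
      mem_of_zpow_mem (p := p) (by rw [← map_pow, hy, map_one]; exact one_mem _) (j := i)
        (by rw [hπ, map_zpow]; exact Subgroup.mem_zpowers _) (by
          rintro ⟨k, rfl⟩
          exact hi (by rw [zpow_mul, zpow_natCast, hy, one_zpow]))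
    obtain ⟨w, j, rfl⟩ := hgen h
    obtain ⟨n, hn⟩ := Subgroup.mem_zpowers_iff.1 (zpow_mem h1 j)
    obtain ⟨u, hu⟩ := (m.mem (ι w * y ^ j * ((ι v * y ^ i) ^ n)⁻¹)).1
      ((QuotientGroup.eq_one_iff _).1 (by
        change π _ = 1
        rw [map_mul, map_inv, hπ w, map_zpow, map_zpow, hn, mul_inv_cancel]))
    exact ⟨u, n, by rw [hu, inv_mul_cancel_right]⟩
  have hκH : ∀ n : ℤ, h0 ^ n ∈ H := fun n => H.zpow_mem h0H n
  let L : Submodule ℤ_[p] V :=
    { m.trace H with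
      smul_mem' := fun a v hv =>
        m.smul_mem (X := m.trace H) (hH.preimage m.emb.continuous) a hv }
  have hL : ∀ v, v ∈ L ↔ ι v ∈ H := fun _ => Iff.rfl
  have hLH : ∀ h ∈ H, ∀ v ∈ L, ρ h v ∈ L := fun h hh v hv => by
    rw [hL, m.conj]
    exact H.mul_mem (H.mul_mem hh hv) (H.inv_mem hh)
  have hdec : ∀ h ∈ H, ∃ (l : L) (n : ℤ), h = ι l * h0 ^ n := fun h hh => by
    obtain ⟨v, n, rfl⟩ := hdec0 h hh
    exact ⟨⟨v, (H.mul_mem_cancel_right (hκH n)).1 hh⟩, n, rfl⟩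
  rcases subsingleton_or_nontrivial L with hLs | hLn
  · have h1 : H = Subgroup.zpowers h0 := by
      refine le_antisymm (fun h hh => ?_) (Subgroup.zpowers_le.2 h0H)
      obtain ⟨l, n, rfl⟩ := hdec h hh
      rw [Subsingleton.elim l 0, Submodule.coe_zero, m.zero, one_mul]
      exact Subgroup.zpow_mem_zpowers _ _
    have h2 : h0 ≠ 1 := fun h => hne (by rw [h1, h, Subgroup.zpowers_one_eq_bot])
    refine ⟨⊥, fun _ => 1, bot_le, fun h _ d hd => by simp [Subgroup.mem_bot.1 hd], ?_,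
      fun _ _ _ _ => by simp, fun _ _ => H.one_mem, fun N hN _ _ => le_bot_iff.1 hN⟩
    rw [Subgroup.relIndex_bot_left, h1, Nat.card_zpowers, orderOf_eq_prime h0p h2]
  obtain ⟨w0, hw0⟩ := exists_ne (0 : L)
  have hw0' : (w0 : V) ≠ 0 := fun h => hw0 (Subtype.ext h)
  have hfix' : ∀ n : ℤ, ρ (h0 ^ n) w0 = w0 → h0 ^ n = 1 := fun n h => by
    rcases hP with rfl | hP
    · exact one_zpow n
    · by_contra h'
      exact hw0' (fix_zero m htf h0p hP h' h)
  have huniq : ∀ (v w : V) (μ ν : ℤ), ι v * h0 ^ μ = ι w * h0 ^ ν → v = w ∧ h0 ^ μ = h0 ^ ν := by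
    intro v w μ ν h
    have h2 : h0 ^ (μ - ν) = ι (-v + w) := by
      rw [zpow_sub, m.add, m.neg, mul_inv_eq_iff_eq_mul, mul_assoc, ← h, inv_mul_cancel_left]
    have h3 := hfix' _ (by rw [h2, m.rho_iota])
    rw [zpow_sub, mul_inv_eq_one] at h3
    rw [h3] at h
    exact ⟨m.inj (mul_right_cancel h), h3⟩
  obtain ⟨π, hπ, hπc, hidx, hint⟩ := exists_shift' m hG htf L h0 (hLH h0 h0H) hP
  have hπκ : ∀ (ν : ℤ) (l : L),
      (π ⟨ρ (h0 ^ ν) l, hLH _ (hκH ν) _ l.2⟩ : V) = ρ (h0 ^ ν) (π l) := by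
    intro ν l
    obtain ⟨n, hn⟩ : ∃ n : ℕ, h0 ^ ν = h0 ^ n := by
      obtain ⟨n, hn⟩ := (isOfFinOrder_iff_pow_eq_one.2 ⟨p, hp.pos, h0p⟩).mem_powers_iff_mem_zpowers.2
        (Subgroup.zpow_mem_zpowers h0 ν)
      exact ⟨n, hn.symm⟩
    have : ∃ l' : L, (ρ (h0 ^ ν) l, ρ (h0 ^ ν) (π l)) = ((l' : V), (π l' : V)) := by
      rw [hn]
      clear hn
      induction n with
      | zero => exact ⟨l, by simp⟩
      | succ n ih =>
        obtain ⟨l', h⟩ := ih
        obtain ⟨h1, h2⟩ := Prod.mk.inj h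
        exact ⟨⟨ρ h0 l', hLH h0 h0H _ l'.2⟩, by
          rw [hπc, pow_succ', map_mul, Module.End.mul_apply, Module.End.mul_apply, h1, h2]⟩
    obtain ⟨l', h⟩ := this
    obtain ⟨h1, h2⟩ := Prod.mk.inj h
    rw [h2, show (⟨ρ (h0 ^ ν) l, hLH _ (hκH ν) _ l.2⟩ : L) = l' from Subtype.ext h1]
  have hmul : ∀ (v w : V) (μ ν : ℤ), ι v * h0 ^ μ * (ι w * h0 ^ ν) =
      ι (v + ρ (h0 ^ μ) w) * h0 ^ (μ + ν) := fun v w μ ν => by
    rw [m.add, m.conj, zpow_add]; group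
  let D : Subgroup G :=
    { carrier := {g | ∃ (l : L) (ν : ℤ), g = ι (π l) * h0 ^ ν}
      one_mem' := ⟨0, 0, by simp [m.zero]⟩
      mul_mem' := by
        rintro _ _ ⟨l, μ, rfl⟩ ⟨l', ν, rfl⟩
        exact ⟨l + ⟨ρ (h0 ^ μ) l', hLH _ (hκH μ) _ l'.2⟩, μ + ν, by
          rw [hmul, map_add, Submodule.coe_add, hπκ]⟩
      inv_mem' := by
        rintro _ ⟨l, μ, rfl⟩
        refine ⟨-⟨ρ (h0 ^ (-μ)) l, hLH _ (hκH _) _ l.2⟩, -μ, ?_⟩
        rw [map_neg, Submodule.coe_neg, hπκ, m.neg, m.conj, zpow_neg]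
        group }
  have hDH : D ≤ H := by
    rintro _ ⟨l, μ, rfl⟩
    exact H.mul_mem (π l).2 (hκH μ)
  have hDi : D.relIndex H = p := by
    refine Eq.trans ?_ hidx
    refine relIndex_of_cover (fun l : L => ι l) (fun v w => m.add _ _) (fun l => l.2) _
      (fun l => ⟨?_, ?_⟩) fun g hg => ?_
    · rintro ⟨l', ν, h⟩
      exact ⟨l', Subtype.ext (huniq _ _ 0 ν (by simpa using h)).1.symm⟩
    · rintro ⟨l', rfl⟩
      exact ⟨l', 0, by simp⟩
    · obtain ⟨l, ν, rfl⟩ := hdec g hg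
      exact ⟨l, 0, ν, by simp [m.zero]⟩
  let f : G → G := fun g =>
    if h : ∃ q : L × ℤ, g = ι (π q.1) * h0 ^ q.2 then ι h.choose.1 * h0 ^ h.choose.2 else 1
  have hf : ∀ (l : L) (ν : ℤ), f (ι (π l) * h0 ^ ν) = ι l * h0 ^ ν := fun l ν => by
    have h : ∃ q : L × ℤ, ι (π l) * h0 ^ ν = ι (π q.1) * h0 ^ q.2 := ⟨(l, ν), rfl⟩
    simp only [f, dif_pos h]
    obtain ⟨h1, h2⟩ := huniq _ _ _ _ h.choose_spec
    rw [← h2, ← hπ (Subtype.ext h1)]
  refine ⟨D, f, hDH, fun h hh d hd => normal_rel hG hH hDi h hh d (hDH hd) hd, hDi, ?_, ?_, ?_⟩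
  · rintro _ ⟨l, μ, rfl⟩ _ ⟨l', ν, rfl⟩
    rw [hf, hf, hmul, hmul, ← hπκ, ← Submodule.coe_add, ← map_add, hf]
    rfl
  · rintro _ ⟨l, μ, rfl⟩
    rw [hf]
    exact H.mul_mem l.2 (hκH μ)
  · intro N hN hNn hinv
    have key : ∀ n : ℕ, ∀ l : L, ι l ∈ N → l ∈ LinearMap.range (π ^ n) := by
      intro n
      induction n with
      | zero => exact fun v _ => ⟨v, rfl⟩
      | succ n ih =>
        intro l hl
        obtain ⟨l', ν, h⟩ := hN hl
        obtain ⟨h1, h3⟩ := huniq _ _ 0 ν (by simpa using h)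
        have h2 := hinv _ hl
        rw [h, hf, ← h3, zpow_zero, mul_one] at h2
        obtain ⟨u, rfl⟩ := ih l' h2
        exact ⟨u, by rw [pow_succ', Module.End.mul_apply]; exact Subtype.ext h1.symm⟩
    have key0 : ∀ l : L, ι l ∈ N → l = 0 := fun l hl => hint l fun n => key n l hl
    rw [eq_bot_iff]
    intro g hg
    have hgH : g ∈ H := hDH (hN hg)
    have h1 := key0 (⟨ρ g w0, hLH g hgH _ w0.2⟩ - w0) (by
      have h2 := N.mul_mem hg (hNn _ w0.2 _ (N.inv_mem hg))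
      rw [Submodule.coe_sub, m.sub, m.conj]
      convert h2 using 1
      group)
    have h2 : ρ g w0 = w0 := congrArg Subtype.val (sub_eq_zero.1 h1)
    obtain ⟨l, ν, rfl⟩ := hN hg
    rw [rho_iota_mul m] at h2
    rw [hfix' ν h2, mul_one] at hg ⊢
    rw [key0 _ hg]
    exact m.zero

end Pool.Agent.Lib.MP_2dbb30_al.IT
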