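import Pool.Agent.Lib.MP_2dbb30_al.IT.If
import Pool.Agent.Lib.MP_2dbb30_al.LL.Main
import Pool.Agent.Lib.MP_2dbb30_al.AN.Main

set_option autoImplicit false
set_option linter.unusedSectionVars false

open Topology Filter Polynomial
open scoped Manifold ContDiff

namespace Pool.Agent.Lib.MP_2dbb30_al.IT

open Pool.Agent.Lib.MP_2dbb30_al.TF Pool.Agent.Lib.MP_2dbb30_al.LL

variable {p : ℕ} [Fact p.Prime] {G : Type*} [Group G] [TopologicalSpace G] [IsTopologicalGroup G]
  [CompactSpace G] [T2Space G] [TotallyDisconnectedSpace G]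

/-- coordinates for a finitely generated model -/
theorem exists_model_fin' {V : Type*} [AddCommGroup V] [Module ℤ_[p] V] [TopologicalSpace V]
    [IsTopologicalAddGroup V] {A : Subgroup G} {ι : V → G} {ρ : G →* Module.End ℤ_[p] V}
    (m : Model A ι ρ) (htf : ∀ g ∈ A, IsOfFinOrder g → g = 1) [Module.Finite ℤ_[p] V] :
    ∃ (d : ℕ) (κ : (Fin d → ℤ_[p]) → G) (σ : G →* Module.End ℤ_[p] (Fin d → ℤ_[p])),
      Model A κ σ := by
  classical
  have := m.t2Space
  have : Module.IsTorsionFree ℤ_[p] V :=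
    Module.IsTorsionFree.of_smul_eq_zero fun a v h => PT.tfA m htf h
  have : Module.Free ℤ_[p] V := Module.free_of_finite_type_torsion_free'
  let b := Module.finBasis ℤ_[p] V
  let e := b.equivFun
  have he : (e.symm : (Fin (Module.finrank ℤ_[p] V) → ℤ_[p]) → V) = fun c => ∑ i, c i • b i := by
    ext c; exact b.equivFun_symm_apply c
  have hc : Continuous (e.symm : (Fin (Module.finrank ℤ_[p] V) → ℤ_[p]) → V) := by
    rw [he]
    exact continuous_finsetSum _ fun i _ => (m.smul (b i)).comp (continuous_apply i)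
  let σ : G →* Module.End ℤ_[p] (Fin (Module.finrank ℤ_[p] V) → ℤ_[p]) :=
    { toFun := fun g => e.toLinearMap ∘ₗ ρ g ∘ₗ e.symm.toLinearMap
      map_one' := LinearMap.ext fun v => by simp
      map_mul' := fun g h => LinearMap.ext fun v => by simp }
  refine ⟨_, ι ∘ e.symm, σ, (m.emb.continuous.comp hc).isClosedEmbedding
    (m.inj.comp e.symm.injective), fun v w => ?_, fun g => ?_, fun g v => ?_,
    fun v => continuous_id.smul continuous_const⟩
  · simp only [Function.comp, map_add, m.add]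
  · rw [m.mem]
    exact ⟨fun ⟨v, hv⟩ => ⟨e v, by simpa using hv⟩, fun ⟨v, hv⟩ => ⟨_, hv⟩⟩
  · rw [Function.comp, Function.comp, ← m.conj]
    exact congrArg ι (e.symm_apply_apply _)

/-- infinite solvable groups of the class with torsion -/
theorem torsion_case [Group.IsSolvable G] [Infinite G] (hG : ProP p G)
    (hfg : ∃ T : Finset G, (Subgroup.closure (T : Set G)).topologicalClosure = ⊤)
    (hve : HVE p G) (h3 : HVE3 p G) {c : G} (hcf : IsOfFinOrder c) (hc1 : c ≠ 1) :
    (∃ k : ℕ, 0 < k ∧ Lamp p k G) ∨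
    ∃ (d : ℕ) (j : Multiplicative (Fin d → ℤ_[p]) →* G)
      (T : Module.End ℤ_[p] (Fin d → ℤ_[p])) (y : G), Continuous j ∧ Function.Injective j ∧
      (∀ v, y * j (Multiplicative.ofAdd v) * y⁻¹ = j (Multiplicative.ofAdd (T v))) ∧
      (j.range ⊔ Subgroup.zpowers y).topologicalClosure = ⊤ ∧
      y ^ p = 1 ∧ ∑ i ∈ Finset.range p, T ^ i = 0 := by
  obtain ⟨A, hA, hAc⟩ := exists_maxA (G := G)
  have hAn : A.Normal := hA.1.1
  by_cases htf : ∀ g ∈ A, IsOfFinOrder g → g = 1
  · right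
    have hc := pow_p hG hve hcf
    have hZ := PT.self_cent hve hA hAc htf
    obtain ⟨V, _, _, _, _, ι, ρ, m0⟩ := exists_model hG A hAn hAc hA.1.2
    have hS : IsOpen (scal ρ : Set G) := scal_open m0 hG hfg fun x => by
      obtain ⟨n, c, hc⟩ := PT.scalar_pow m0 hG htf x (PT.line_pow m0 hG htf hve x)
      exact ⟨n, c, hc⟩
    have := PT.finite_V m0 hG htf hfg (fix_mem m0 hZ) hS
    have hAo := open_of_torsion m0 hG hve htf (fix_mem m0 hZ) hS hc hc1
    obtain ⟨d, κ, σ, m⟩ := exists_model_fin' m0 htf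
    let j : Multiplicative (Fin d → ℤ_[p]) →* G :=
      MonoidHom.mk' (fun v => κ v.toAdd) fun v w => m.add _ _
    refine ⟨d, j, σ c, c, m.emb.continuous.comp continuous_toAdd,
      m.inj.comp Multiplicative.toAdd.injective, fun v => (m.conj c v).symm, ?_, hc,
      nrm_zero m hG hve htf hc hc1⟩
    rw [eq_top_iff]
    intro g _
    obtain ⟨v, i, rfl⟩ := gen_of_torsion m hG hve htf (fix_mem m hZ) hAo hc hc1 g
    exact Subgroup.le_topologicalClosure _ (Subgroup.mul_mem _ (Subgroup.mem_sup_left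
      ⟨Multiplicative.ofAdd v, rfl⟩) (Subgroup.mem_sup_right (Subgroup.zpow_mem_zpowers c i)))
  · left
    push Not at htf
    obtain ⟨c, hcA, hcf, hc1⟩ := htf
    obtain ⟨x₀, hx₀⟩ : ∃ x₀ : G, ¬ IsOfFinOrder x₀ := by
      by_contra h
      push Not at h
      have hc : IsClosed ((⊥ : Subgroup G) : Set G) := by
        rw [Subgroup.coe_bot]; exact isClosed_singleton
      have hfi : (⊥ : Subgroup G).FiniteIndex := finiteIndex_of_pow_mem ⊥ hc hfg fun x => by
        obtain ⟨n, hn, hx⟩ := isOfFinOrder_iff_pow_eq_one.mp (h x)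
        exact ⟨n, hn, Subgroup.mem_bot.mpr hx⟩
      exact hfi.index_ne_zero (by rw [Subgroup.index_bot, Nat.card_eq_zero_of_infinite])
    have hZp : ∀ g ∈ Subgroup.centralizer (A : Set G), g ^ p = 1 := fun g hg => by
      by_contra h
      exact hc1 (eq_one_of_commute hG hve (pow_p hG hve hcf) (fun h' => h (pow_p hG hve h'))
        (Subgroup.mem_centralizer_iff.1 hg c hcA))
    have hZn : (Subgroup.centralizer (A : Set G)).Normal := inferInstance
    have hAZ : A ≤ Subgroup.centralizer (A : Set G) :=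
      fun a ha => Subgroup.mem_centralizer_iff.2 fun b hb => hA.1.2 b hb a ha
    have hZA : Subgroup.centralizer (A : Set G) ≤ A :=
      hA.2 ⟨hZn, abelian_of_exp hG hve h3 (isClosed_centralizer' _) hZp hx₀
        fun n hn => hZn.conj_mem n hn x₀⟩ hAZ
    have hAp : ∀ a ∈ A, a ^ p = 1 := fun a ha => hZp a (hAZ ha)
    have hA1 : A ≠ ⊥ := fun h => hc1 (by rwa [h, Subgroup.mem_bot] at hcA)
    obtain ⟨x, hx, hdec⟩ := struct hG hve h3 hAn hAc hAp hA1
      (fun g => ⟨fun hg a ha => hA.1.2 g hg a ha,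
        fun h => hZA (Subgroup.mem_centralizer_iff.2 fun a ha => (h a ha).symm)⟩) hx₀
    exact param hG hfg hAn hAc hAp hA1 hA.1.2 hx
      (fun a ha h => eq_one_of_commute hG hve (hAp a ha) hx h) hdec

theorem hve_of_ss (hG : ProP p G)
    (hss : ∀ L : Subgroup G, L ≠ ⊥ →
      (∃ F : Finset G, (Subgroup.closure (F : Set G)).topologicalClosure = L) → SelfSimilar p L) :
    HVE p G ∧ HVE3 p G := by
  classical
  have key : ∀ F : Finset G, ∀ a ∈ F, a ≠ 1 →
      VE p (Subgroup.closure (F : Set G)).topologicalClosure := fun F a ha h1 => by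
    refine ve_of_selfSimilar hG _ (Subgroup.isClosed_topologicalClosure _)
      (hss _ (fun h => h1 ?_) ⟨F, rfl⟩)
    have : a ∈ (Subgroup.closure (F : Set G)).topologicalClosure :=
      Subgroup.le_topologicalClosure _ (Subgroup.subset_closure ha)
    rwa [h, Subgroup.mem_bot] at this
  refine ⟨fun a b ha => ?_, fun a b c ha => ?_⟩
  · simpa using key {a, b} a (by simp) ha
  · simpa using key {a, b, c} a (by simp) ha

/-- the family (C) is hereditary and analytic -/
theorem caseC (hG : ProP p G)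
    (hfg : ∃ T : Finset G, (Subgroup.closure (T : Set G)).topologicalClosure = ⊤) {d : ℕ}
    (j : Multiplicative (Fin d → ℤ_[p]) →* G) (T : Module.End ℤ_[p] (Fin d → ℤ_[p])) (y : G)
    (hc : Continuous j) (hi : Function.Injective j)
    (hT : ∀ v, y * j (Multiplicative.ofAdd v) * y⁻¹ = j (Multiplicative.ofAdd (T v)))
    (hgen : (j.range ⊔ Subgroup.zpowers y).topologicalClosure = ⊤) (hy : y ^ p = 1)
    (hN : ∑ i ∈ Finset.range p, T ^ i = 0) :
    (∀ L : Subgroup G, L ≠ ⊥ →
      (∃ F : Finset G, (Subgroup.closure (F : Set G)).topologicalClosure = L) → SelfSimilar p L) ∧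
    ∃ (n : ℕ) (_ : ChartedSpace (Fin n → ℚ_[p]) G), LieGroup 𝓘(ℚ_[p], Fin n → ℚ_[p]) ω G := by
  have hp : p.Prime := Fact.out
  obtain ⟨σ, m, rfl, hdec⟩ := model_of_data hG j T y hc hi hT hgen
  have htf : ∀ g ∈ j.range, IsOfFinOrder g → g = 1 := by
    rintro _ ⟨v, rfl⟩ h
    rw [hi.isOfFinOrder_iff, isOfFinOrder_iff_eq_one] at h
    rw [h, map_one]
  have hdec' : ∀ g, ∃ (v : Fin d → ℤ_[p]) (i : ℤ), g = j (Multiplicative.ofAdd v) * y ^ i := by
    intro g
    obtain ⟨v, μ, rfl⟩ := hdec g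
    obtain ⟨i, hi⟩ := Subgroup.mem_zpowers_iff.1 (pw_mem hG
      (isClosed_zpowers (isOfFinOrder_iff_pow_eq_one.2 ⟨p, hp.pos, hy⟩))
      (Subgroup.mem_zpowers y) μ)
    exact ⟨v, i, by rw [hi]⟩
  refine ⟨fun L hL hF => selfSimilar_of_ve hp.ne_zero (ve_caseC m hG htf hy hN hdec' L hL ?_), ?_⟩
  · obtain ⟨F, rfl⟩ := hF
    exact Subgroup.isClosed_topologicalClosure _
  · have := AN.solvable_of_gen m hG y hdec
    have hAn : j.range.Normal := ⟨fun a ha g => by
      obtain ⟨v, rfl⟩ := (m.mem a).1 ha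
      exact (m.mem _).2 ⟨_, m.conj g v⟩⟩
    have hfi : j.range.FiniteIndex := finiteIndex_of_pow_mem _ (PT.closedA m) hfg fun x => by
      obtain ⟨v, i, rfl⟩ := hdec' x
      refine ⟨p, hp.pos, ?_⟩
      rw [iota_mul_pow m, ← zpow_natCast, ← zpow_mul, mul_comm i, zpow_mul, zpow_natCast, hy,
        one_zpow, mul_one]
      exact ⟨_, rfl⟩
    exact PT.lie_open' m htf (Subgroup.isOpen_of_isClosed_of_finiteIndex _ (PT.closedA m))

end Pool.Agent.Lib.MP_2dbb30_al.IT
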