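import Pool.Agent.Lib.MP_2dbb30_al.AN.Main

set_option autoImplicit false

open scoped Manifold ContDiff

namespace Pool.Agent.Lib.MP_2dbb30_al.IT.OldTorsionFree

open Pool.Agent.Lib.MP_2dbb30_al.TF Pool.Agent.Lib.MP_2dbb30_al.AN

/-- every nontrivial finitely generated closed subgroup of `G` is self-similar of index `p` -/
def Hereditary (p : ℕ) (G : Type*) [Group G] [TopologicalSpace G] [IsTopologicalGroup G] : Prop :=
  ∀ L : Subgroup G, L ≠ ⊥ →
    (∃ F : Finset G, (Subgroup.closure (F : Set G)).topologicalClosure = L) → SelfSimilar p L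

/-- `G` is topologically generated by the continuously embedded module `W` and by `y`, which
conjugates `W` by the linear map `T`, and either (A) `y ^ p` lies in `W` and `T - 1` has rank less
than `p`, or (B) `T` has infinite order and each `S = T ^ p ^ i` is a scalar or satisfies
`p = (S - 1) r(S)` for a polynomial `r`. -/
def Shape (p : ℕ) {R W G : Type*} [CommRing R] [AddCommGroup W] [Module R W] [TopologicalSpace W]
    [Group G] [TopologicalSpace G] [IsTopologicalGroup G]
    (j : Multiplicative W →* G) (T : Module.End R W) (y : G) : Prop :=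
  Continuous j ∧ Function.Injective j ∧
    (∀ v, y * j (Multiplicative.ofAdd v) * y⁻¹ = j (Multiplicative.ofAdd (T v))) ∧
    (j.range ⊔ Subgroup.zpowers y).topologicalClosure = ⊤ ∧
    ((y ^ p ∈ j.range ∧ Module.finrank R (LinearMap.range (T - 1)) < p) ∨
      (¬ IsOfFinOrder T ∧ ∀ i : ℕ, (∃ c : R, T ^ p ^ i = c • (1 : Module.End R W)) ∨
        ∃ r : Polynomial R,
          (p : Module.End R W) = (T ^ p ^ i - 1) * Polynomial.aeval (T ^ p ^ i) r))

/-- Among finitely generated torsion-free pro-`p` groups, the strongly hereditarily self-similar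
ones that are `p`-adic analytic are the ones that are solvable, and they form an explicit list. -/
theorem result (p : ℕ) [Fact p.Prime] (G : Type*) [Group G] [TopologicalSpace G]
    [IsTopologicalGroup G] [CompactSpace G] [T2Space G] [TotallyDisconnectedSpace G]
    (hp : ∀ N : Subgroup G, N.Normal → IsOpen (N : Set G) → ∃ k : ℕ, N.index = p ^ k)
    (hfg : ∃ F : Finset G, (Subgroup.closure (F : Set G)).topologicalClosure = ⊤)
    (htf : ∀ g : G, IsOfFinOrder g → g = 1) :
    List.TFAE [
      Hereditary p G ∧ ∃ (n : ℕ) (_ : ChartedSpace (Fin n → ℚ_[p]) G),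
        LieGroup 𝓘(ℚ_[p], Fin n → ℚ_[p]) ω G,
      Hereditary p G ∧ Group.IsSolvable G,
      ∃ (d : ℕ) (j : Multiplicative (Fin d → ℤ_[p]) →* G)
        (T : Module.End ℤ_[p] (Fin d → ℤ_[p])) (y : G), Shape p j T y] := by
  classical
  tfae_have 1 → 2 := fun h => ⟨h.1, solvable_of_lie' hp h.1 h.2⟩
  tfae_have 2 → 3 := fun h => by
    have := h.2
    exact (classification hp hfg htf).1 h.1
  tfae_have 3 → 1 := fun h => by
    have : Group.IsSolvable G := by
      obtain ⟨d, j, T, y, hc, hi, hT, hgen, -⟩ := h
      obtain ⟨σ, m, -, hdec⟩ := model_of_data hp j T y hc hi hT hgen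
      exact solvable_of_gen m hp y hdec
    have hss := (classification hp hfg htf).2 h
    refine ⟨hss, main hp hfg htf fun a b ha => ve_of_selfSimilar hp _
      (Subgroup.isClosed_topologicalClosure _) (hss _ (fun h => ha ?_) ⟨{a, b}, by simp⟩)⟩
    have : a ∈ (Subgroup.closure ({a, b} : Set G)).topologicalClosure :=
      Subgroup.le_topologicalClosure _ (Subgroup.subset_closure (by simp))
    rwa [h, Subgroup.mem_bot] at this
  tfae_finish

end Pool.Agent.Lib.MP_2dbb30_al.IT.OldTorsionFree
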