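import Pool.Agent.Lib.MP_2dbb30_al.IT.Sq
import Pool.Agent.Lib.MP_2dbb30_al.LL.Port
import Pool.Agent.Lib.MP_2dbb30_al.TF.CMain

set_option autoImplicit false
set_option linter.unusedSectionVars false

open Topology Filter Polynomial
open scoped commutatorElement

namespace Pool.Agent.Lib.MP_2dbb30_al.IT

open Pool.Agent.Lib.MP_2dbb30_al.TF Pool.Agent.Lib.MP_2dbb30_al.LL

/-- a proper cyclic subgroup of order `p` of a finite `p`-group lies in an abelian subgroup of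
order `p ^ 2` -/
theorem exists_over {p : ℕ} [Fact p.Prime] {Q : Type*} [Group Q] [Finite Q] (hQ : IsPGroup p Q)
    {C : Q} (hC : C ^ p = 1) (hne : ∃ g, g ∉ Subgroup.zpowers C) :
    ∃ g, g ∉ Subgroup.zpowers C ∧ Commute g C ∧ g ^ p ∈ Subgroup.zpowers C := by
  classical
  obtain ⟨g, hg, hgc⟩ : ∃ g, g ∉ Subgroup.zpowers C ∧ Commute g C := by
    obtain ⟨g, hg⟩ := hne
    have : Nontrivial Q := ⟨g, 1, fun h => hg (h ▸ one_mem _)⟩
    have := hQ.center_nontrivial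
    obtain ⟨⟨z, hz⟩, hz1⟩ := exists_ne (1 : Subgroup.center Q)
    by_cases h : z ∈ Subgroup.zpowers C
    · obtain ⟨i, rfl⟩ := Subgroup.mem_zpowers_iff.1 h
      have h1 : C ∈ Subgroup.center Q := mem_of_zpow_mem (hC ▸ one_mem _) hz (by
        rintro ⟨n, rfl⟩
        exact hz1 (Subtype.ext (by simp [zpow_mul, hC])))
      exact ⟨g, hg, Subgroup.mem_center_iff.1 h1 g⟩
    · exact ⟨z, h, (Subgroup.mem_center_iff.1 hz C).symm⟩
  have hex : ∃ k : ℕ, g ^ p ^ k ∈ Subgroup.zpowers C := by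
    obtain ⟨k, hk⟩ := hQ g
    exact ⟨k, hk ▸ one_mem _⟩
  obtain ⟨k, hk⟩ : ∃ k, Nat.find hex = k + 1 :=
    Nat.exists_eq_succ_of_ne_zero fun h => hg (by simpa [h] using Nat.find_spec hex)
  refine ⟨g ^ p ^ k, Nat.find_min hex (by omega), hgc.pow_left _, ?_⟩
  have := Nat.find_spec hex
  rwa [hk, pow_succ, pow_mul] at this

variable {p : ℕ} [Fact p.Prime] {G : Type*} [Group G] [TopologicalSpace G] [IsTopologicalGroup G]
  [CompactSpace G] [T2Space G] [TotallyDisconnectedSpace G]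
  {V : Type*} [AddCommGroup V] [Module ℤ_[p] V] [TopologicalSpace V] [IsTopologicalAddGroup V]
  {A : Subgroup G} {ι : V → G} {ρ : G →* Module.End ℤ_[p] V}

theorem exists_r {T : Module.End ℤ_[p] V} (h : ∑ i ∈ Finset.range p, T ^ i = 0) :
    ∃ r : ℤ_[p][X], (p : Module.End ℤ_[p] V) = (T - 1) * aeval T r := by
  obtain ⟨r, hr⟩ : (X - C 1 : ℤ_[p][X]) ∣ (p : ℤ_[p][X]) - ∑ i ∈ Finset.range p, X ^ i := by
    rw [dvd_iff_isRoot]
    simp [eval_finsetSum]
  refine ⟨r, ?_⟩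
  have := congrArg (aeval T) hr
  simpa [h] using this

theorem iota_mul_pow (m : Model A ι ρ) (v : V) (g : G) (n : ℕ) :
    (ι v * g) ^ n = ι ((∑ i ∈ Finset.range n, ρ g ^ i) v) * g ^ n := by
  induction n with
  | zero => simp [m.zero]
  | succ n ih =>
    rw [pow_succ, ih, Finset.sum_range_succ, LinearMap.add_apply, m.add, ← map_pow, m.conj,
      pow_succ]
    group

theorem rho_mem (m : Model A ι ρ) {a : G} (ha : a ∈ A) : ρ a = 1 := by
  obtain ⟨v, rfl⟩ := (m.mem a).1 ha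
  exact LinearMap.ext fun w => m.rho_iota v w

theorem nrm_zero (m : Model A ι ρ) (hG : ProP p G) (hve : HVE p G)
    (htf : ∀ g ∈ A, IsOfFinOrder g → g = 1) {t : G} (ht : t ^ p = 1) (ht1 : t ≠ 1) :
    ∑ i ∈ Finset.range p, ρ t ^ i = 0 := by
  ext v
  set w := (∑ i ∈ Finset.range p, ρ t ^ i) v with hw
  have h1 : ρ t w = w := by
    have := congrArg (fun S : Module.End ℤ_[p] V => S v) (mul_geom_sum (ρ t) p)
    rw [← map_pow, ht, map_one, sub_self] at this
    exact sub_eq_zero.1 this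
  have h2 : Commute t (ι w) := by
    have := m.conj t w
    rw [h1] at this
    exact mul_inv_eq_iff_eq_mul.1 this.symm
  by_contra h
  refine ht1 (eq_one_of_commute hG hve ht (fun hf => h (m.inj ?_)) h2)
  rw [htf _ ((m.mem _).2 ⟨w, rfl⟩) hf]
  exact m.zero.symm

/-- step 1 -/
theorem open_of_torsion (m : Model A ι ρ) (hG : ProP p G) (hve : HVE p G)
    (htf : ∀ g ∈ A, IsOfFinOrder g → g = 1) (hA : ∀ g, (∀ v, ρ g v = v) → g ∈ A)
    (hS : IsOpen (scal ρ : Set G)) {c : G} (hc : c ^ p = 1) (hc1 : c ≠ 1) :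
    IsOpen (A : Set G) := by
  have hp : p.Prime := Fact.out
  rcases PT.open_or_scalar m htf hA hS with h | ⟨_, s, β, h1, h2, hs⟩
  · exact h
  exfalso
  obtain ⟨a, ha⟩ := (m.mem _).1 (hA (c * s * c⁻¹ * s⁻¹) fun v => by
    rw [rho_mul, rho_mul, rho_mul, hs, map_smul, rho_inv_right, ← hs, rho_inv_right])
  have hsn : ∀ (n : ℕ) (v : V), (ρ s ^ n) v = β ^ n • v := fun n v => by
    induction n with
    | zero => simp
    | succ n ih => rw [pow_succ', Module.End.mul_apply, ih, map_smul, hs, smul_smul, pow_succ]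
  obtain ⟨γ, hγ⟩ : (p : ℤ_[p]) ∣ ∑ i ∈ Finset.range p, β ^ i := by
    have e : ∑ i ∈ Finset.range p, β ^ i = ∑ i ∈ Finset.range p, (β ^ i - 1 ^ i) + p := by
      simp [Finset.sum_sub_distrib]
    rw [e]
    exact dvd_add (Finset.dvd_sum fun i _ => ((dvd_pow_self _ two_ne_zero).trans h1).trans
      (sub_dvd_pow_sub_pow β 1 i)) dvd_rfl
  obtain ⟨r, hr⟩ := exists_r (nrm_zero m hG hve htf hc hc1)
  set u := aeval (ρ c) r (γ • a) with hu
  have e1 : (∑ i ∈ Finset.range p, ρ s ^ i) a = ρ c u - u := by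
    have := congrArg (fun S : Module.End ℤ_[p] V => S (γ • a)) hr
    simp only [Module.End.natCast_apply, Module.End.mul_apply, LinearMap.sub_apply,
      Module.End.one_apply] at this
    rw [← this, LinearMap.sum_apply]
    simp only [hsn]
    rw [← Finset.sum_smul, hγ, mul_smul, Nat.cast_smul_eq_nsmul]
  have e2 : c * s ^ p * c⁻¹ = ι (ρ c u - u) * s ^ p := by
    rw [← e1, ← iota_mul_pow m, ha, inv_mul_cancel_right, conj_pow]
  have e3 : Commute c (ι (-u) * s ^ p) := by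
    have : c * (ι (-u) * s ^ p) * c⁻¹ = ι (-u) * s ^ p := by
      have e : c * (ι (-u) * s ^ p) * c⁻¹ = c * ι (-u) * c⁻¹ * (c * s ^ p * c⁻¹) := by group
      rw [e, e2, ← m.conj, ← mul_assoc, ← m.add, map_neg]
      congr 2
      abel
    exact mul_inv_eq_iff_eq_mul.1 this
  refine hc1 (eq_one_of_commute hG hve hc (fun hf => ?_) e3)
  have e4 := congrArg ρ (pow_p hG hve hf)
  rw [map_pow, rho_iota_mul m, map_pow, ← pow_mul, map_one, ← pow_two] at e4
  obtain ⟨v, hv⟩ := exists_ne (0 : V)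
  obtain ⟨k, w, hw, hβ⟩ := exists_unit_form h1 h2
  obtain ⟨w', hw', h3⟩ := pow_prime_pow_eq hw hβ 2
  have e5 := hsn (p ^ 2) v
  rw [e4, h3, add_smul, one_smul, Module.End.one_apply, left_eq_add] at e5
  rcases mul_eq_zero.1 ((PT.tfA m htf e5).resolve_right hv) with h | h
  · exact pow_ne_zero _ (Nat.cast_ne_zero.2 hp.ne_zero) h
  · exact hw'.ne_zero h

/-- step 2 -/
theorem gen_of_torsion (m : Model A ι ρ) (hG : ProP p G) (hve : HVE p G) [hAn : A.Normal]
    (htf : ∀ g ∈ A, IsOfFinOrder g → g = 1) (hA : ∀ g, (∀ v, ρ g v = v) → g ∈ A)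
    (hAo : IsOpen (A : Set G)) {c : G} (hc : c ^ p = 1) (hc1 : c ≠ 1) (g₀ : G) :
    ∃ (v : V) (i : ℤ), g₀ = ι v * c ^ i := by
  have hp : p.Prime := Fact.out
  obtain ⟨hfin, hP, -⟩ := quot_facts hG hAo
  set π := QuotientGroup.mk' A with hπ
  have hπ1 : ∀ g, π g = 1 ↔ g ∈ A := fun g => QuotientGroup.eq_one_iff g
  have hlift : ∀ g g', π g = π g' → ∃ v, g = ι v * g' := fun g g' h => by
    obtain ⟨v, hv⟩ := (m.mem _).1 ((hπ1 (g * g'⁻¹)).1 (by rw [map_mul, map_inv, h, mul_inv_cancel]))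
    exact ⟨v, by rw [hv, inv_mul_cancel_right]⟩
  have hC : π c ^ p = 1 := by rw [← map_pow, hc, map_one]
  have hC1 : π c ≠ 1 := fun h =>
    hc1 (htf c ((hπ1 c).1 h) (isOfFinOrder_iff_pow_eq_one.2 ⟨p, hp.pos, hc⟩))
  have hCo : orderOf (π c) = p := orderOf_eq_prime hC hC1
  by_contra hcon
  obtain ⟨γ, hγ, hγc, hγp⟩ := exists_over hP hC ⟨π g₀, fun h => hcon (by
    obtain ⟨i, hi⟩ := Subgroup.mem_zpowers_iff.1 h
    obtain ⟨v, hv⟩ := hlift g₀ (c ^ i) (by rw [map_zpow, hi])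
    exact ⟨v, i, hv⟩)⟩
  obtain ⟨g, rfl⟩ := QuotientGroup.mk'_surjective A γ
  change π g ∉ _ at hγ
  change Commute (π g) _ at hγc
  change π g ^ p ∈ _ at hγp
  have hgp : π g ^ p = 1 := by
    by_contra h
    obtain ⟨i, hi⟩ := Subgroup.mem_zpowers_iff.1 hγp
    obtain ⟨v, hv⟩ := hlift (g ^ p) (c ^ i) (by rw [map_zpow, hi, map_pow])
    have h1 : (c ^ i) ^ p = 1 := by
      rw [← zpow_natCast, ← zpow_mul, mul_comm, zpow_mul, zpow_natCast, hc, one_zpow]
    have h2 : c ^ i ≠ 1 := fun h' => h (by rw [← hi, ← map_zpow, h', map_one])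
    have h3 : (g ^ p) ^ p = 1 := by
      rw [hv, iota_mul_pow m, nrm_zero m hG hve htf h1 h2, h1, LinearMap.zero_apply, m.zero,
        one_mul]
    rw [← pow_mul] at h3
    exact h (by rw [← map_pow, pow_p hG hve
      (isOfFinOrder_iff_pow_eq_one.2 ⟨_, mul_pos hp.pos hp.pos, h3⟩), map_one])
  have hST : Commute (ρ g) (ρ c) := by
    obtain ⟨v, hv⟩ := hlift (g * c) (c * g) (by rw [map_mul, map_mul, hγc.eq])
    have := congrArg ρ hv
    rwa [rho_iota_mul m, map_mul, map_mul] at this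
  have hsum : ∑ i ∈ Finset.range p, ∑ k ∈ Finset.range p, ρ (g * c ^ i) ^ k = p := by
    rw [Finset.sum_comm, Finset.sum_eq_single_of_mem 0 (Finset.mem_range.2 hp.pos)]
    · simp
    · intro k hk hk0
      have h1 : (c ^ k) ^ p = 1 := by rw [← pow_mul, mul_comm, pow_mul, hc, one_pow]
      have h2 : c ^ k ≠ 1 := fun h => by
        have : π c ^ k = 1 := by rw [← map_pow, h, map_one]
        rw [← orderOf_dvd_iff_pow_eq_one, hCo] at this
        exact hk0 (Nat.eq_zero_of_dvd_of_lt this (Finset.mem_range.1 hk))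
      rw [← mul_zero (ρ g ^ k), ← nrm_zero m hG hve htf h1 h2, Finset.mul_sum]
      refine Finset.sum_congr rfl fun i _ => ?_
      rw [map_mul, map_pow, map_pow, (hST.pow_right i).mul_pow, ← pow_mul, ← pow_mul, mul_comm i]
  have hxA : ∀ i : ℕ, g * c ^ i ∉ A := fun i h => hγ (by
    have := (hπ1 _).2 h
    rw [map_mul, map_pow, mul_eq_one_iff_eq_inv] at this
    exact this ▸ inv_mem (Subgroup.npow_mem_zpowers _ _))
  have hxq : ∀ i : ℕ, π (g * c ^ i) ^ p = 1 := fun i => by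
    rw [map_mul, map_pow, (hγc.pow_right i).mul_pow, hgp, ← pow_mul, mul_comm i, pow_mul,
      hC, one_pow, one_mul]
  have hxp : ∀ i : ℕ, (g * c ^ i) ^ p ∈ A := fun i => by rw [← hπ1, map_pow, hxq]
  have claim : ∀ i₀ < p, ∃ j < p, j ≠ i₀ ∧ (g * c ^ j) ^ p ≠ 1 := by
    intro i₀ hi₀
    by_contra h
    push Not at h
    rw [Finset.sum_eq_single_of_mem i₀ (Finset.mem_range.2 hi₀) fun j hj hj0 =>
      nrm_zero m hG hve htf (h j (Finset.mem_range.1 hj) hj0)
        fun h' => hxA j (h' ▸ one_mem _)] at hsum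
    refine hxA i₀ (hA _ fun v => ?_)
    have h1 := congrArg (fun S : Module.End ℤ_[p] V => S v) (geom_sum_mul (ρ (g * c ^ i₀)) p)
    rw [hsum, ← map_pow, rho_mem m (hxp i₀), sub_self] at h1
    simp only [Module.End.mul_apply, Module.End.natCast_apply, LinearMap.zero_apply] at h1
    rw [← Nat.cast_smul_eq_nsmul ℤ_[p]] at h1
    exact sub_eq_zero.1 ((PT.tfA m htf h1).resolve_left (Nat.cast_ne_zero.2 hp.ne_zero))
  have hind : ∀ i < p, ∀ j < p, i ≠ j → π (g * c ^ j) ∉ Subgroup.zpowers (π (g * c ^ i)) := by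
    intro i hi j hj hij h
    obtain ⟨n, hn⟩ := Subgroup.mem_zpowers_iff.1 h
    by_cases hd : (p : ℤ) ∣ n - 1
    · obtain ⟨k, hk⟩ := hd
      rw [sub_eq_iff_eq_add.1 hk, zpow_add, zpow_mul, zpow_natCast, hxq, one_zpow, one_mul,
        zpow_one, map_mul, map_mul, mul_right_inj, map_pow, map_pow, pow_eq_pow_iff_modEq,
        hCo] at hn
      exact hij (Nat.ModEq.eq_of_lt_of_lt hn hi hj)
    · refine hγ (mem_of_zpow_mem hγp ?_ hd)
      rw [map_mul, map_mul, map_pow, map_pow, (hγc.pow_right i).mul_zpow] at hn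
      have e : π g ^ (n - 1) = π c ^ j * ((π c ^ i) ^ n)⁻¹ := by
        rw [eq_mul_inv_iff_mul_eq, sub_eq_add_neg, add_comm, zpow_add, mul_assoc, hn]
        simp
      rw [e]
      exact mul_mem (Subgroup.npow_mem_zpowers _ _)
        (inv_mem (zpow_mem (Subgroup.npow_mem_zpowers _ _) _))
  obtain ⟨i, hi, -, hx⟩ := claim 0 hp.pos
  obtain ⟨j, hj, hji, hy⟩ := claim i hi
  have hxy : Commute (π (g * c ^ i)) (π (g * c ^ j)) := by
    rw [map_mul, map_mul, map_pow, map_pow]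
    exact ((Commute.refl _).mul_right (hγc.pow_right j)).mul_left
      ((hγc.pow_right i).symm.mul_right (Commute.pow_pow_self _ i j))
  refine nosq hG hve hAo (fun a ha b hb => ?_) htf (hxp i) (hxp j) hx hy hxy
    (hind i hi j hj hji.symm) (hind j hj i hi hji) hc hc1 ?_
  · obtain ⟨v, rfl⟩ := (m.mem a).1 ha
    obtain ⟨w, rfl⟩ := (m.mem b).1 hb
    rw [← m.add, ← m.add, add_comm]
  · refine mem_of_zpow_mem (hC ▸ one_mem _) (j := (j : ℤ) - i) ?_ fun h =>
      hji (Nat.ModEq.eq_of_lt_of_lt ((Nat.modEq_iff_dvd).2 h) hi hj).symm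
    have e : π c ^ ((j : ℤ) - i) = (π (g * c ^ i))⁻¹ * π (g * c ^ j) := by
      rw [map_mul, map_mul, map_pow, map_pow, sub_eq_add_neg, add_comm, zpow_add]
      simp
    exact e ▸ mul_mem (inv_mem (left_mem_sq hxy)) (right_mem_sq hxy)

end Pool.Agent.Lib.MP_2dbb30_al.IT
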