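import Pool.Agent.Lib.MP_2dbb30_al.LL.NA

set_option autoImplicit false
set_option linter.unusedSectionVars false

open Topology Filter
open scoped commutatorElement

namespace Pool.Agent.Lib.MP_2dbb30_al.IT

open Pool.Agent.Lib.MP_2dbb30_al.TF Pool.Agent.Lib.MP_2dbb30_al.LL

section abstract

variable {Q : Type*} [Group Q] {x y : Q}

/-- the subgroup generated by two commuting elements -/
def Sq (h : Commute x y) : Subgroup Q where
  carrier := {q | ∃ a b : ℤ, q = x ^ a * y ^ b}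
  one_mem' := ⟨0, 0, by simp⟩
  mul_mem' := by
    rintro _ _ ⟨a, b, rfl⟩ ⟨a', b', rfl⟩
    exact ⟨a + a', b + b', by
      rw [zpow_add, zpow_add, (h.zpow_zpow a' b).symm.mul_mul_mul_comm]⟩
  inv_mem' := by
    rintro _ ⟨a, b, rfl⟩
    exact ⟨-a, -b, by rw [mul_inv_rev, zpow_neg, zpow_neg, (h.zpow_zpow a b).inv_inv.eq]⟩

theorem left_mem_sq (h : Commute x y) : x ∈ Sq h := ⟨1, 0, by simp⟩

theorem right_mem_sq (h : Commute x y) : y ∈ Sq h := ⟨0, 1, by simp⟩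

theorem sq_pow {p : ℕ} (h : Commute x y) (hx : x ^ p = 1) (hy : y ^ p = 1) {q : Q}
    (hq : q ∈ Sq h) : q ^ p = 1 := by
  obtain ⟨a, b, rfl⟩ := hq
  rw [(h.zpow_zpow a b).mul_pow, ← zpow_natCast, ← zpow_natCast, ← zpow_mul, ← zpow_mul,
    mul_comm a, mul_comm b, zpow_mul, zpow_mul, zpow_natCast, zpow_natCast, hx, hy]
  simp

theorem sq_le {p : ℕ} [Fact p.Prime] (h : Commute x y) (hx : x ^ p = 1) (hy : y ^ p = 1)
    {w z : Q} (hw : w ∈ Sq h) (hz : z ∈ Sq h) (hw1 : w ≠ 1) (hzw : z ∉ Subgroup.zpowers w)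
    {K : Subgroup Q} (hwK : w ∈ K) (hzK : z ∈ K) : Sq h ≤ K := by
  have hzp := sq_pow h hx hy hz
  obtain ⟨a, b, rfl⟩ := hw
  obtain ⟨a', b', rfl⟩ := hz
  have e : ∀ a b n : ℤ, (x ^ a * y ^ b) ^ n = x ^ (a * n) * y ^ (b * n) := fun a b n => by
    rw [(h.zpow_zpow a b).mul_zpow, ← zpow_mul, ← zpow_mul]
  have e1 : (x ^ a * y ^ b) ^ b' = x ^ (a * b' - a' * b) * (x ^ a' * y ^ b') ^ b := by
    rw [e, e, ← mul_assoc, ← zpow_add, sub_add_cancel, mul_comm b]
  have e2 : (x ^ a' * y ^ b') ^ a = (x ^ a * y ^ b) ^ a' * y ^ (a * b' - a' * b) := by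
    rw [e, e, mul_assoc, ← zpow_add, mul_comm a' a]
    congr 2
    ring
  have one : ∀ t : Q, t ^ p = 1 → ∀ n : ℤ, (p : ℤ) ∣ n → t ^ n = 1 := by
    rintro t ht _ ⟨n, rfl⟩
    rw [zpow_mul, zpow_natCast, ht, one_zpow]
  by_cases hd : (p : ℤ) ∣ a * b' - a' * b
  · exfalso
    rw [one x hx _ hd, one_mul] at e1
    rw [one y hy _ hd, mul_one] at e2
    have h0 : (x ^ a' * y ^ b') ^ p ∈ Subgroup.zpowers (x ^ a * y ^ b) := hzp ▸ one_mem _
    by_cases ha : (p : ℤ) ∣ a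
    · by_cases hb : (p : ℤ) ∣ b
      · exact hw1 (by rw [one x hx _ ha, one y hy _ hb, mul_one])
      · exact hzw (mem_of_zpow_mem h0 (e1 ▸ Subgroup.zpow_mem_zpowers _ _) hb)
    · exact hzw (mem_of_zpow_mem h0 (e2 ▸ Subgroup.zpow_mem_zpowers _ _) ha)
  · have hxK : x ∈ K := mem_of_zpow_mem (hx ▸ one_mem _)
      ((K.mul_mem_cancel_right (K.zpow_mem hzK b)).1 (e1 ▸ K.zpow_mem hwK b')) hd
    have hyK : y ∈ K := mem_of_zpow_mem (hy ▸ one_mem _)
      ((K.mul_mem_cancel_left (K.zpow_mem hwK a')).1 (e2 ▸ K.zpow_mem hzK a)) hd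
    rintro _ ⟨m, n, rfl⟩
    exact K.mul_mem (K.zpow_mem hxK m) (K.zpow_mem hyK n)

end abstract

variable {p : ℕ} [Fact p.Prime] {G : Type*} [Group G] [TopologicalSpace G] [IsTopologicalGroup G]
  [CompactSpace G] [T2Space G] [TotallyDisconnectedSpace G]

/-- the normaliser of the closure of a subgroup is closed -/
theorem norm_cl (B : Subgroup G) : ∃ W : Subgroup G, IsClosed (W : Set G) ∧
    (∀ l ∈ W, ∀ b ∈ B.topologicalClosure, l * b * l⁻¹ ∈ B.topologicalClosure) ∧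
    ∀ l, (∀ b ∈ B, l * b * l⁻¹ ∈ B) → (∀ b ∈ B, l⁻¹ * b * l⁻¹⁻¹ ∈ B) → l ∈ W := by
  have hc1 := B.isClosed_topologicalClosure
  let W : Subgroup G :=
    { carrier := {l | ∀ b ∈ B.topologicalClosure, l * b * l⁻¹ ∈ B.topologicalClosure ∧
        l⁻¹ * b * l⁻¹⁻¹ ∈ B.topologicalClosure}
      one_mem' := fun b hb => by simpa using hb
      mul_mem' := fun {x y} hx hy b hb => by
        have e1 := (hx _ (hy b hb).1).1
        have e2 := (hy _ (hx b hb).2).2
        exact ⟨by simpa [mul_assoc] using e1, by simpa [mul_assoc] using e2⟩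
      inv_mem' := fun {x} hx b hb => ⟨(hx b hb).2, by simpa using (hx b hb).1⟩ }
  refine ⟨W, ?_, fun l hl b hb => (hl b hb).1,
    fun l h1 h2 b hb => ⟨conj_cl h1 b hb, conj_cl h2 b hb⟩⟩
  change IsClosed {l : G | ∀ b ∈ B.topologicalClosure, l * b * l⁻¹ ∈ B.topologicalClosure ∧
      l⁻¹ * b * l⁻¹⁻¹ ∈ B.topologicalClosure}
  simp only [Set.ofPred_forall]
  refine isClosed_iInter fun b => isClosed_iInter fun _ => IsClosed.inter ?_ ?_
  · exact hc1.preimage (f := fun l : G => l * b * l⁻¹) (by fun_prop)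
  · exact hc1.preimage (f := fun l : G => l⁻¹ * b * l⁻¹⁻¹) (by fun_prop)

/-- no elementary abelian quotient of rank two over a torsion-free lattice, with torsion -/
theorem nosq (hG : ProP p G) (hve : HVE p G) {A : Subgroup G} [hAn : A.Normal]
    (hAo : IsOpen (A : Set G)) (hab : ∀ a ∈ A, ∀ b ∈ A, a * b = b * a)
    (htf : ∀ g ∈ A, IsOfFinOrder g → g = 1) {x y c : G} (hx : x ^ p ∈ A) (hy : y ^ p ∈ A)
    (hx1 : x ^ p ≠ 1) (hy1 : y ^ p ≠ 1)
    (hxy : Commute (QuotientGroup.mk' A x) (QuotientGroup.mk' A y))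
    (hyx : QuotientGroup.mk' A y ∉ Subgroup.zpowers (QuotientGroup.mk' A x))
    (hxy' : QuotientGroup.mk' A x ∉ Subgroup.zpowers (QuotientGroup.mk' A y))
    (hc : c ^ p = 1) (hc1 : c ≠ 1) (hcE : QuotientGroup.mk' A c ∈ Sq hxy) : False := by
  have hp : p.Prime := Fact.out
  set π := QuotientGroup.mk' A with hπ
  have hπ1 : ∀ g, π g = 1 ↔ g ∈ A := fun g => QuotientGroup.eq_one_iff g
  have hπe : ∀ g g', π g = π g' → g⁻¹ * g' ∈ A := fun g g' h => by
    rw [← hπ1, map_mul, map_inv, h, inv_mul_cancel]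
  have hcl : ∀ K : Subgroup (G ⧸ A), IsClosed ((K.comap π : Subgroup G) : Set G) := fun K =>
    Subgroup.isClosed_of_isOpen _ (Subgroup.isOpen_mono (H₁ := A)
      (fun a ha => by rw [Subgroup.mem_comap, (hπ1 a).2 ha]; exact one_mem _) hAo)
  have hX : π x ^ p = 1 := by rw [← map_pow, hπ1]; exact hx
  have hY : π y ^ p = 1 := by rw [← map_pow, hπ1]; exact hy
  have hX1 : π x ≠ 1 := fun h => hxy' (h ▸ one_mem _)
  have tfp : ∀ a ∈ A, a ^ p = 1 → a = 1 := fun a ha h =>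
    htf a ha (isOfFinOrder_iff_pow_eq_one.2 ⟨p, hp.pos, h⟩)
  have fix : ∀ a ∈ A, ∀ e e', π e ∈ Sq hxy → π e' ∈ Sq hxy → π e ≠ 1 →
      π e' ∉ Subgroup.zpowers (π e) → Commute e a → Commute e' a → a = 1 := by
    intro a ha e e' he he' h1 h2 c1 c2
    have mem : ∀ g, g ∈ Subgroup.centralizer ({a} : Set G) ↔ Commute g a := fun g =>
      Subgroup.mem_centralizer_singleton_iff
    obtain ⟨g, hg, hgc⟩ := sq_le hxy hX hY he he' h1 h2
      (K := (Subgroup.centralizer ({a} : Set G)).map π) ⟨e, (mem e).2 c1, rfl⟩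
      ⟨e', (mem e').2 c2, rfl⟩ hcE
    have h3 : Commute c a := by
      have := ((mem g).1 hg).mul_left (hab _ (hπe _ _ hgc) a ha)
      rwa [mul_inv_cancel_left] at this
    by_contra ha1
    exact hc1 (eq_one_of_commute hG hve hc (fun h => ha1 (htf a ha h)) h3)
  have cent : ∀ a ∈ A, ∀ b ∈ A, a ≠ 1 → b ≠ 1 → Commute x a → Commute y b →
      ∀ e, π e ∈ Sq hxy → e ∉ A → Commute e a → Commute e b → False := by
    intro a ha b hb ha1 hb1 c1 c2 e he heA c3 c4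
    have he1 : π e ≠ 1 := fun h => heA ((hπ1 e).1 h)
    have h1 : π x ∈ Subgroup.zpowers (π e) := by
      by_contra h
      exact ha1 (fix a ha e x he (left_mem_sq hxy) he1 h c3 c1)
    have h2 : π y ∈ Subgroup.zpowers (π e) := by
      by_contra h
      exact hb1 (fix b hb e y he (right_mem_sq hxy) he1 h c4 c2)
    obtain ⟨i, hi⟩ := Subgroup.mem_zpowers_iff.1 h1
    have hep := sq_pow hxy hX hY he
    have h3 : π e ∈ Subgroup.zpowers (π x) :=
      mem_of_zpow_mem (hep ▸ one_mem _) (j := i) (hi ▸ Subgroup.mem_zpowers _) (by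
        rintro ⟨n, rfl⟩
        rw [zpow_mul, zpow_natCast, hep, one_zpow] at hi
        exact hX1 hi.symm)
    exact hyx (Subgroup.zpowers_le.2 h3 h2)
  obtain ⟨D, f, hDL, hDn, hDi, hf, hfL, hs⟩ := hve x y (by rintro rfl; exact hx1 (one_pow p))
  obtain ⟨hpow, hcom, hgen, -⟩ := index_facts hDn hDi
  obtain ⟨hf1, hfi, hfp, hfc⟩ := hom_facts hf
  set L := (Subgroup.closure ({x, y} : Set G)).topologicalClosure with hL
  have hLc : IsClosed (L : Set G) := Subgroup.isClosed_topologicalClosure _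
  have hxL : x ∈ L := left_mem_cl2 x y
  have hyL : y ∈ L := right_mem_cl2 x y
  have hLE : ∀ l ∈ L, π l ∈ Sq hxy := fun l hl =>
    cl2_le (hcl (Sq hxy)) (left_mem_sq hxy) (right_mem_sq hxy) hl
  have hLp : ∀ l ∈ L, l ^ p ∈ A := fun l hl => by
    rw [← hπ1, map_pow]; exact sq_pow hxy hX hY (hLE l hl)
  have ud : ∀ D' : Subgroup G, (∀ l ∈ L, l ^ p ∈ D') → (∀ l ∈ L, ∀ l' ∈ L, ⁅l, l'⁆ ∈ D') →
      L ⊓ A ≤ D' := by
    intro D' h1 h2 n hn
    by_contra hnD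
    have hn1 : ∀ K : Subgroup (G ⧸ A), n ∈ K.comap π := fun K => by
      rw [Subgroup.mem_comap, (hπ1 n).2 hn.2]; exact one_mem _
    rcases gen hG x y hL.symm h1 h2 hn.1 hnD with h | h
    · exact hyx (cl2_le (hcl (Subgroup.zpowers (π x))) (hn1 _) (Subgroup.mem_zpowers _) (h ▸ hyL))
    · exact hxy' (cl2_le (hcl (Subgroup.zpowers (π y))) (hn1 _) (Subgroup.mem_zpowers _) (h ▸ hxL))
  have hUD : L ⊓ A ≤ D := ud D hpow hcom
  have hUn : ∀ l ∈ L, ∀ u ∈ L ⊓ A, l * u * l⁻¹ ∈ L ⊓ A := fun l hl u hu =>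
    ⟨L.mul_mem (L.mul_mem hl hu.1) (L.inv_mem hl), hAn.conj_mem u hu.2 l⟩
  have hxU : x ^ p ∈ L ⊓ A := ⟨L.pow_mem hxL p, hx⟩
  have hyU : y ^ p ∈ L ⊓ A := ⟨L.pow_mem hyL p, hy⟩
  have hfU : ∀ u ∈ L ⊓ A, ∀ u' ∈ L ⊓ A, f u * f u' = f u' * f u := fun u hu u' hu' => by
    rw [← hf _ (hUD hu) _ (hUD hu'), ← hf _ (hUD hu') _ (hUD hu), hab u hu.2 u' hu'.2]
  obtain ⟨u0, hu0, hw⟩ : ∃ u ∈ L ⊓ A, f u ∉ A := by
    by_contra h
    push Not at h
    have := hs (L ⊓ A) hUD hUn fun n hn => ⟨hfL n (hUD hn), h n hn⟩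
    rw [this, Subgroup.mem_bot] at hxU
    exact hx1 hxU
  have hwL : f u0 ∈ L := hfL _ (hUD hu0)
  by_cases hcase : ∃ d ∈ D, π (f d) ∉ Subgroup.zpowers (π (f u0))
  · obtain ⟨d, hd, hz⟩ := hcase
    let B : Subgroup G :=
      { carrier := f '' (L ⊓ A : Subgroup G)
        one_mem' := ⟨1, one_mem _, hf1⟩
        mul_mem' := by
          rintro _ _ ⟨a, ha, rfl⟩ ⟨b, hb, rfl⟩
          exact ⟨a * b, mul_mem ha hb, hf _ (hUD ha) _ (hUD hb)⟩
        inv_mem' := by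
          rintro _ ⟨a, ha, rfl⟩
          exact ⟨a⁻¹, inv_mem ha, hfi _ (hUD ha)⟩ }
    obtain ⟨W, hWc, hW1, hW2⟩ := norm_cl B
    have hfB : ∀ d ∈ D, ∀ b ∈ B, f d * b * (f d)⁻¹ ∈ B := by
      rintro d hd _ ⟨b, hb, rfl⟩
      exact ⟨_, hUn d (hDL hd) b hb, hfc d hd b (hUD hb)⟩
    have hfW : ∀ d ∈ D, f d ∈ W := fun d hd =>
      hW2 _ (hfB d hd) (by rw [← hfi d hd]; exact hfB _ (D.inv_mem hd))
    have hLW : L ≤ W := by
      by_contra hne
      obtain ⟨D', -, h1, h2, h3, h4, h5⟩ := nak hG (W := W ⊓ L) (hWc.inter hLc) hLc inf_le_right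
        fun h' => hne (h'.trans inf_le_left)
      have h6 := sq_le hxy hX hY (hLE _ hwL) (hLE _ (hfL d hd)) (fun h => hw ((hπ1 _).1 h)) hz
        (K := D'.map π) ⟨_, h1 ⟨hfW _ (hUD hu0), hwL⟩, rfl⟩ ⟨_, h1 ⟨hfW d hd, hfL d hd⟩, rfl⟩
      refine h3 fun l hl => ?_
      obtain ⟨d', hd', h7⟩ := h6 (hLE l hl)
      exact (D'.mul_mem_cancel_left (D'.inv_mem hd')).1
        (ud D' h4 h5 ⟨L.mul_mem (L.inv_mem (h2 hd')) hl, hπe _ _ h7⟩)
    have hwB : f u0 ∈ B.topologicalClosure := B.le_topologicalClosure ⟨u0, hu0, rfl⟩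
    have key : ∀ u ∈ L ⊓ A, Commute (f u0) u := fun u hu => by
      have h1 : Commute (f u0) (u * f u0 * u⁻¹) :=
        comm_cl (B := B) (by
          rintro _ ⟨a, ha, rfl⟩ _ ⟨b, hb, rfl⟩
          exact hfU a ha b hb) _ hwB _ (hW1 u (hLW hu.1) _ hwB)
      have h2 : Commute (f u0) ⁅f u0, u⁆ := by
        have e : ⁅f u0, u⁆ = f u0 * (u * f u0 * u⁻¹)⁻¹ := by
          simp only [commutatorElement_def]; group
        rw [e]
        exact (Commute.refl (f u0)).mul_right h1.inv_right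
      have h3 := comm_pow_left h2 p
      rw [commutatorElement_eq_one_iff_mul_comm.2 (hab _ (hLp _ hwL) u hu.2)] at h3
      exact commutatorElement_eq_one_iff_commute.1
        (tfp _ (A.mul_mem (hAn.conj_mem u hu.2 _) (A.inv_mem hu.2)) h3.symm)
    exact cent _ hx _ hy hx1 hy1 (Commute.self_pow x p) (Commute.self_pow y p) _ (hLE _ hwL) hw
      (key _ hxU) (key _ hyU)
  · push Not at hcase
    have core : ∀ k ∈ D, (∀ l ∈ L, f (l * k * l⁻¹) = 1) → k = 1 := by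
      intro k hk h
      let K : Subgroup G :=
        { carrier := {k | k ∈ D ∧ ∀ l ∈ L, f (l * k * l⁻¹) = 1}
          one_mem' := ⟨D.one_mem, fun l _ => by simpa using hf1⟩
          mul_mem' := fun {a b} ha hb => ⟨D.mul_mem ha.1 hb.1, fun l hl => by
            rw [← conj_mul, hf _ (hDn l hl a ha.1) _ (hDn l hl b hb.1), ha.2 l hl, hb.2 l hl,
              mul_one]⟩
          inv_mem' := fun {a} ha => ⟨D.inv_mem ha.1, fun l hl => by
            rw [← conj_inv, hfi _ (hDn l hl a ha.1), ha.2 l hl, inv_one]⟩ }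
      have := hs K (fun k hk => hk.1) (fun l hl k hk => ⟨hDn l hl k hk.1, fun l' hl' => by
        have := hk.2 (l' * l) (L.mul_mem hl' hl)
        simpa [mul_assoc] using this⟩) fun k hk => by
          have := hk.2 1 L.one_mem
          rw [one_mul, inv_one, mul_one] at this
          rw [this]
          exact K.one_mem
      have h1 : k ∈ K := ⟨hk, h⟩
      rwa [this, Subgroup.mem_bot] at h1
    obtain ⟨h, hh, hhA⟩ : ∃ h ∈ D, h ∉ A := by
      by_contra hcon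
      push Not at hcon
      obtain ⟨i, hi⟩ := hgen x hxL (fun h => hX1 ((hπ1 x).2 (hcon x h))) y hyL
      have := (hπ1 _).2 (hcon _ hi)
      rw [map_mul, map_inv, inv_mul_eq_one, map_pow] at this
      exact hyx (this ▸ Subgroup.npow_mem_zpowers _ _)
    have h0 : ∀ d ∈ D, ∀ u ∈ L ⊓ A, f ⁅d, u ^ p⁆ = 1 := fun d hd u hu => by
      have hup := D.pow_mem (hUD hu) p
      obtain ⟨m, hm⟩ := Subgroup.mem_zpowers_iff.1 (hcase d hd)
      rw [← map_zpow] at hm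
      have h1 : Commute (f u0) (f u) := hfU _ hu0 _ hu
      have h2 : Commute (f d) (f u ^ p) := by
        have := ((h1.pow_right p).zpow_left m).mul_left
          (hab _ (hπe _ _ hm) _ (hLp _ (hfL _ (hUD hu))))
        rwa [mul_inv_cancel_left] at this
      rw [commutatorElement_def, hf _ (hDn d (hDL hd) _ hup) _ (D.inv_mem hup), hfc d hd _ hup, hfi _ hup,
        hfp _ (hUD hu), h2.eq]
      group
    have key : ∀ u ∈ L ⊓ A, Commute h (u ^ p) := fun u hu => by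
      refine commutatorElement_eq_one_iff_commute.1
        (core _ (hcom _ (hDL hh) _ (L.pow_mem hu.1 p)) fun l hl => ?_)
      rw [conjugate_commutatorElement, ← conj_pow]
      exact h0 _ (hDn l hl h hh) _ (hUn l hl u hu)
    exact cent _ (A.pow_mem hx p) _ (A.pow_mem hy p) (fun h => hx1 (tfp _ hx h))
      (fun h => hy1 (tfp _ hy h)) ((Commute.self_pow x p).pow_right p)
      ((Commute.self_pow y p).pow_right p) h (hLE _ (hDL hh)) hhA (key _ hxU) (key _ hyU)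

end Pool.Agent.Lib.MP_2dbb30_al.IT
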